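import Pool.Agent.Helper14.CB.Hv

/-!
# CB, degree 3: the discriminant
-/

set_option autoImplicit false

namespace Pool.Agent.Helper94.CB

open NumberField Polynomial Pool.Agent.Helper4.CB

variable {K : Type} [Field K] [NumberField K]

/-- a nonzero integer has a nonzero natural multiple -/
theorem exists_nat_mul {b : 𝓞 K} (hb : b ≠ 0) : ∃ (D : ℕ) (c : 𝓞 K), D ≠ 0 ∧ (D : 𝓞 K) = c * b := by
  have h1 : Ideal.span {b} ≠ ⊥ := fun h => hb (Ideal.span_singleton_eq_bot.1 h)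
  have h2 : ((Ideal.absNorm (Ideal.span {b}) : ℕ) : 𝓞 K) ∈ Ideal.span {b} := Ideal.absNorm_mem _
  obtain ⟨c, hc⟩ := Ideal.mem_span_singleton'.1 h2
  exact ⟨Ideal.absNorm (Ideal.span {b}), c, fun h => h1 (Ideal.absNorm_eq_zero_iff.1 h), hc.symm⟩

theorem exists_disc_bezout (P : (𝓞 K)[X]) (hirr : Irreducible (P.map (algebraMap (𝓞 K) K))) :
    ∃ (D : ℕ) (A B : (𝓞 K)[X]), D ≠ 0 ∧ A * P + B * derivative P = C (D : 𝓞 K) := by
  have h1 : IsCoprime (P.map (algebraMap (𝓞 K) K)) ((derivative P).map (algebraMap (𝓞 K) K)) := by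
    have h2 := hirr.separable
    rw [← Polynomial.derivative_map]
    exact h2
  obtain ⟨b, A, B, hb, hAB⟩ := Pool.Agent.Helper14.CB.exists_bezout h1
  obtain ⟨D, c, hD, hc⟩ := exists_nat_mul hb
  refine ⟨D, C c * A, C c * B, hD, ?_⟩
  rw [hc, map_mul, ← hAB]
  ring

/-- the discriminant of `P` in the form used by the degree 3 instance -/
theorem exists_disc (P : (𝓞 K)[X]) (hirr : Irreducible (P.map (algebraMap (𝓞 K) K))) :
    ∃ D : ℕ, D ≠ 0 ∧ ∀ q : Ideal (𝓞 K), (D : 𝓞 K) ∉ q → ∀ t, P.eval t ∈ q →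
      P.derivative.eval t ∉ q := by
  obtain ⟨D, A, B, hD, h⟩ := exists_disc_bezout P hirr
  refine ⟨D, hD, fun q hq t ht ht' => hq ?_⟩
  have h1 := congrArg (Polynomial.eval t) h
  rw [eval_add, eval_mul, eval_mul, eval_C] at h1
  rw [← h1]
  exact q.add_mem (q.mul_mem_left _ ht) (q.mul_mem_left _ ht')

end Pool.Agent.Helper94.CB
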